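import Pool.Agent.P8H99.GO.Stm

/-! # Project OD, package KEY: an inequality with binomial coefficients -/

set_option autoImplicit false

namespace Pool.Agent.P8H69.OD

open Filter

theorem logs (c : ℝ) (hc : 0 < c) : ∃ N : ℕ, ∀ n : ℕ, N ≤ n → Real.log n ^ 2 ≤ c * n := by
  have h1 := (Real.isLittleO_pow_log_id_atTop (n := 2)).bound hc
  obtain ⟨N, h3⟩ := eventually_atTop.1 (tendsto_natCast_atTop_atTop.eventually h1)
  refine ⟨N, fun n hn => ?_⟩
  have h4 := h3 n hn
  simp only [id_eq, Real.norm_eq_abs] at h4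
  rw [abs_of_nonneg (Nat.cast_nonneg n : (0 : ℝ) ≤ (n : ℝ))] at h4
  exact (le_abs_self _).trans h4

theorem key : Pool.Agent.P8H99.GO.S_KEY := by
  have hl2 : 0 < Real.log 2 := Real.log_pos (by norm_num)
  have hl43 : 0 < Real.log (4 / 3) := Real.log_pos (by norm_num)
  obtain ⟨N, hN⟩ := logs (Real.log 2 * (Real.log (4 / 3) / 4)) (by positivity)
  refine ⟨2, max N 4, fun E O x hx hn => ?_⟩
  obtain ⟨n, hnd⟩ : ∃ n : ℕ, n = E + O := ⟨_, rfl⟩
  rw [← hnd] at hn ⊢
  have hn4 : 4 ≤ n := (le_max_right _ _).trans hn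
  have hnN : N ≤ n := (le_max_left _ _).trans hn
  have hnr : (4 : ℝ) ≤ n := by exact_mod_cast hn4
  have hnEO : (n : ℝ) = E + O := by
    rw [hnd]
    push_cast
    ring
  have hE0 : (0 : ℝ) ≤ E := Nat.cast_nonneg E
  have hO0 : (0 : ℝ) ≤ O := Nat.cast_nonneg O
  obtain ⟨B, hB⟩ : ∃ B : ℝ, B = (2 : ℝ) ^ (((O : ℝ) - E) ^ 2 / 4) := ⟨_, rfl⟩
  have hB1 : 1 ≤ B := by
    rw [hB]
    exact Real.one_le_rpow (by norm_num) (by positivity)
  have hsplit : (2 : ℝ) ^ ((E : ℝ) + ((O : ℝ) - E) ^ 2 / 4) = 2 ^ E * B := by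
    rw [Real.rpow_add (by norm_num), Real.rpow_natCast, hB]
  rw [hsplit]
  have hch : (E.choose x : ℝ) ≤ 2 ^ E := by exact_mod_cast Nat.choose_le_two_pow E x
  have hch0 : (0 : ℝ) ≤ (E.choose x : ℝ) := Nat.cast_nonneg _
  have ht0 : (0 : ℝ) ≤ (1 / 2 : ℝ) ^ x := by positivity
  have hn2 : (16 : ℝ) ≤ (n : ℝ) ^ 2 := by nlinarith [hnr]
  have h2E : (0 : ℝ) < 2 ^ E := by positivity
  by_cases h1 : O ≤ 2 ^ x
  · -- the first case
    have h2 : (1 + (1 / 2 : ℝ) ^ x) ^ O ≤ 3 := by
      have h3 : 1 + (1 / 2 : ℝ) ^ x ≤ Real.exp ((1 / 2 : ℝ) ^ x) := by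
        have := Real.add_one_le_exp ((1 / 2 : ℝ) ^ x)
        linarith
      calc (1 + (1 / 2 : ℝ) ^ x) ^ O ≤ (Real.exp ((1 / 2 : ℝ) ^ x)) ^ O :=
            pow_le_pow_left₀ (by positivity) h3 O
        _ = Real.exp (O * (1 / 2 : ℝ) ^ x) := by rw [← Real.exp_nat_mul]
        _ ≤ Real.exp 1 := by
            apply Real.exp_le_exp.2
            have h4 : (O : ℝ) ≤ 2 ^ x := by exact_mod_cast h1
            calc (O : ℝ) * (1 / 2 : ℝ) ^ x ≤ 2 ^ x * (1 / 2 : ℝ) ^ x :=
                  mul_le_mul_of_nonneg_right h4 ht0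
              _ = 1 := by
                  rw [← mul_pow]
                  norm_num
        _ ≤ 3 := by
            have := Real.exp_one_lt_d9
            linarith
    calc (E.choose x : ℝ) * (1 + (1 / 2 : ℝ) ^ x) ^ O ≤ 2 ^ E * 3 :=
          mul_le_mul hch h2 (by positivity) h2E.le
      _ ≤ (n : ℝ) ^ 2 * (2 ^ E * B) := by
          have h5 : (2 : ℝ) ^ E * 3 ≤ 2 ^ E * (n : ℝ) ^ 2 :=
            mul_le_mul_of_nonneg_left (by linarith) h2E.le
          have h6 : (2 : ℝ) ^ E * (n : ℝ) ^ 2 ≤ 2 ^ E * (n : ℝ) ^ 2 * B :=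
            le_mul_of_one_le_right (by positivity) hB1
          calc (2 : ℝ) ^ E * 3 ≤ 2 ^ E * (n : ℝ) ^ 2 * B := h5.trans h6
            _ = _ := by ring
  · push Not at h1
    by_cases h2 : 4 * O ≤ n
    · -- the second case
      have h3 : (1 + (1 / 2 : ℝ) ^ x) ^ O ≤ 2 ^ O := by
        apply pow_le_pow_left₀ (by positivity)
        have : (1 / 2 : ℝ) ^ x ≤ 1 := pow_le_one₀ (by norm_num) (by norm_num)
        linarith
      have h4 : (2 : ℝ) ^ O ≤ B := by
        rw [hB, ← Real.rpow_natCast]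
        apply Real.rpow_le_rpow_of_exponent_le (by norm_num)
        have h5 : 4 * (O : ℝ) ≤ n := by exact_mod_cast h2
        have h6 : (n : ℝ) / 2 ≤ E - O := by linarith
        have h7 : ((n : ℝ) / 2) ^ 2 ≤ ((E : ℝ) - O) ^ 2 :=
          pow_le_pow_left₀ (by linarith) h6 2
        have h8 : ((O : ℝ) - E) ^ 2 = ((E : ℝ) - O) ^ 2 := by ring
        rw [h8]
        have h9 : (n : ℝ) ≤ (n : ℝ) ^ 2 / 4 := by nlinarith [hnr]
        have h10 : ((n : ℝ) / 2) ^ 2 = (n : ℝ) ^ 2 / 4 := by ring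
        linarith
      calc (E.choose x : ℝ) * (1 + (1 / 2 : ℝ) ^ x) ^ O ≤ 2 ^ E * B :=
            mul_le_mul hch (h3.trans h4) (by positivity) h2E.le
        _ ≤ (n : ℝ) ^ 2 * (2 ^ E * B) := le_mul_of_one_le_left (by positivity) (by linarith)
    · -- the third case
      push Not at h2
      have hO1 : (n : ℝ) < 4 * O := by exact_mod_cast h2
      have hOn : O ≤ n := by omega
      have hEn : E ≤ n := by omega
      have hlogn : 0 < Real.log n := Real.log_pos (by linarith)
      have hxl : (x : ℝ) * Real.log 2 ≤ Real.log n := by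
        rw [← Real.log_pow]
        apply Real.log_le_log (by positivity)
        have : 2 ^ x ≤ n := h1.le.trans hOn
        exact_mod_cast this
      have h3 : (E.choose x : ℝ) ≤ Real.exp (Real.log n ^ 2 / Real.log 2) := by
        have h4 : (E.choose x : ℝ) ≤ (n : ℝ) ^ x := by
          have h5 : E.choose x ≤ n ^ x := (Nat.choose_le_pow E x).trans (Nat.pow_le_pow_left hEn x)
          exact_mod_cast h5
        refine h4.trans ?_
        have h6 : (n : ℝ) ^ x = Real.exp (x * Real.log n) := by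
          rw [Real.exp_nat_mul, Real.exp_log (by linarith)]
        rw [h6]
        apply Real.exp_le_exp.2
        rw [le_div_iff₀ hl2]
        calc (x : ℝ) * Real.log n * Real.log 2 = (x * Real.log 2) * Real.log n := by ring
          _ ≤ Real.log n * Real.log n := mul_le_mul_of_nonneg_right hxl hlogn.le
          _ = Real.log n ^ 2 := by ring
      have h7 : (1 + (1 / 2 : ℝ) ^ x) ^ O ≤ (3 / 4 : ℝ) ^ O * 2 ^ O := by
        rw [← mul_pow]
        apply pow_le_pow_left₀ (by positivity)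
        have : (1 / 2 : ℝ) ^ x ≤ 1 / 2 := by
          calc (1 / 2 : ℝ) ^ x ≤ (1 / 2 : ℝ) ^ 1 :=
                pow_le_pow_of_le_one (by norm_num) (by norm_num) hx
            _ = 1 / 2 := pow_one _
        linarith
      have h8 : (3 / 4 : ℝ) ^ O ≤ Real.exp (-(n * (Real.log (4 / 3) / 4))) := by
        have h9 : (3 / 4 : ℝ) ^ O = Real.exp (-(O * Real.log (4 / 3))) := by
          rw [Real.exp_neg, Real.exp_nat_mul, Real.exp_log (by norm_num), ← inv_pow]
          norm_num
        rw [h9]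
        apply Real.exp_le_exp.2
        nlinarith [mul_le_mul_of_nonneg_right hO1.le hl43.le]
      have h10 : (2 : ℝ) ^ O ≤ 2 * (2 ^ E * B) := by
        have h11 : (2 : ℝ) * (2 ^ E * B) = (2 : ℝ) ^ (1 + ((E : ℝ) + ((O : ℝ) - E) ^ 2 / 4)) := by
          rw [Real.rpow_add (by norm_num), Real.rpow_one, hsplit]
        rw [h11, ← Real.rpow_natCast]
        apply Real.rpow_le_rpow_of_exponent_le (by norm_num)
        nlinarith [sq_nonneg (((O : ℝ) - E) / 2 - 1)]
      have h12 : Real.exp (Real.log n ^ 2 / Real.log 2) *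
          Real.exp (-(n * (Real.log (4 / 3) / 4))) ≤ 1 := by
        rw [← Real.exp_add, Real.exp_le_one_iff]
        have h13 := hN n hnN
        have h14 : Real.log n ^ 2 / Real.log 2 ≤ n * (Real.log (4 / 3) / 4) := by
          rw [div_le_iff₀ hl2]
          linarith
        linarith
      calc (E.choose x : ℝ) * (1 + (1 / 2 : ℝ) ^ x) ^ O
          ≤ Real.exp (Real.log n ^ 2 / Real.log 2) * ((3 / 4 : ℝ) ^ O * 2 ^ O) :=
            mul_le_mul h3 h7 (by positivity) (Real.exp_pos _).le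
        _ ≤ Real.exp (Real.log n ^ 2 / Real.log 2) *
            (Real.exp (-(n * (Real.log (4 / 3) / 4))) * (2 * (2 ^ E * B))) := by
            apply mul_le_mul_of_nonneg_left _ (Real.exp_pos _).le
            exact mul_le_mul h8 h10 (by positivity) (Real.exp_pos _).le
        _ = (Real.exp (Real.log n ^ 2 / Real.log 2) *
            Real.exp (-(n * (Real.log (4 / 3) / 4)))) * (2 * (2 ^ E * B)) := by ring
        _ ≤ 1 * (2 * (2 ^ E * B)) := mul_le_mul_of_nonneg_right h12 (by positivity)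
        _ ≤ (n : ℝ) ^ 2 * (2 ^ E * B) := by
            rw [one_mul]
            exact mul_le_mul_of_nonneg_right (by linarith) (by positivity)

end Pool.Agent.P8H69.OD
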